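import Mathlib
import Pool.Agent.N984.DI.Stm

set_option autoImplicit false

namespace Pool.Agent.N371.DI

open Matrix Finset Pool.Agent.N984.DI
open scoped ComplexOrder

theorem le_emb {k n : ℕ} (f : Fin k ↪o Fin n) : ∀ (j : ℕ) (hj : j < k), j ≤ (f ⟨j, hj⟩ : ℕ) := by
  intro j
  induction j with
  | zero => intro _; exact Nat.zero_le _
  | succ j ih =>
    intro hj
    have h1 := ih (by omega)
    have h2 : f ⟨j, by omega⟩ < f ⟨j + 1, hj⟩ := f.strictMono (by simp [Fin.lt_def])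
    have h3 : (f ⟨j, by omega⟩ : ℕ) < (f ⟨j + 1, hj⟩ : ℕ) := h2
    omega

theorem filt_eq {n k : ℕ} (hk : k ≤ n) :
    (univ.filter (fun i : Fin n => (i : ℕ) < k)) = univ.map (Fin.castLEEmb hk) := by
  ext i
  simp only [mem_filter, mem_univ, true_and, mem_map]
  constructor
  · intro h
    exact ⟨⟨i, h⟩, by ext; simp⟩
  · rintro ⟨a, rfl⟩
    simp

theorem prod_first {n k : ℕ} (hk : k ≤ n) (x : Fin n → ℝ) :
    ∏ i ∈ univ.filter (fun i : Fin n => (i : ℕ) < k), x i = ∏ j : Fin k, x (Fin.castLE hk j) := by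
  rw [filt_eq hk, prod_map]
  rfl

theorem prod_ix {n k : ℕ} (I : Ix n k) (x : Fin n → ℝ) :
    ∏ i ∈ I.1, x i = ∏ j : Fin k, x (I.1.orderEmbOfFin I.2 j) := by
  have h : I.1 = univ.map (I.1.orderEmbOfFin I.2).toEmbedding := by
    rw [Finset.map_orderEmbOfFin_univ]
  calc ∏ i ∈ I.1, x i = ∏ i ∈ univ.map (I.1.orderEmbOfFin I.2).toEmbedding, x i := by rw [← h]
    _ = _ := by rw [prod_map]; rfl

theorem prod_iff {n k : ℕ} (hk : k ≤ n) (x : Fin n → ℝ) (hx : ∀ i, 0 < x i) (ha : Antitone x)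
    (c : ℝ) : (∀ I : Ix n k, ∏ i ∈ I.1, x i ≤ c) ↔
      ∏ i ∈ univ.filter (fun i : Fin n => (i : ℕ) < k), x i ≤ c := by
  constructor
  · intro h
    exact h ⟨univ.filter (fun i : Fin n => (i : ℕ) < k), by
      rw [filt_eq hk, card_map, card_univ, Fintype.card_fin]⟩
  · intro h I
    refine le_trans ?_ h
    rw [prod_first hk, prod_ix]
    refine prod_le_prod (fun j _ => (hx _).le) fun j _ => ha ?_
    have := le_emb (I.1.orderEmbOfFin I.2) j j.2
    exact this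

theorem t_TOPK (h2 : CPM) : TOPK := by
  intro n k hk U hU x hx ha c
  obtain ⟨c1, c2, c3, c4⟩ := h2 n k
  obtain ⟨V, hV⟩ : ∃ V, V = cpd k U := ⟨_, rfl⟩
  have hVu : V ∈ Matrix.unitaryGroup (Ix n k) ℂ := by rw [hV]; exact c3 U hU
  have hV1 : V * Vᴴ = 1 := (Matrix.mem_unitaryGroup_iff).1 hVu
  have hV2 : Vᴴ * V = 1 := (Matrix.mem_unitaryGroup_iff').1 hVu
  have e1 : cpd k (dg U x) =
      V * Matrix.diagonal (fun I : Ix n k => ((∏ i ∈ I.1, x i : ℝ) : ℂ)) * Vᴴ := by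
    unfold dg
    rw [c1, c1, c2, c4, hV]
  have e2 : (c : ℂ) • (1 : Matrix (Ix n k) (Ix n k) ℂ) - cpd k (dg U x) =
      V * Matrix.diagonal (fun I : Ix n k => ((c - ∏ i ∈ I.1, x i : ℝ) : ℂ)) * Vᴴ := by
    have e3 : Matrix.diagonal (fun I : Ix n k => ((c - ∏ i ∈ I.1, x i : ℝ) : ℂ)) =
        (c : ℂ) • (1 : Matrix (Ix n k) (Ix n k) ℂ) -
          Matrix.diagonal (fun I : Ix n k => ((∏ i ∈ I.1, x i : ℝ) : ℂ)) := by
      rw [Matrix.smul_one_eq_diagonal, Matrix.diagonal_sub]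
      congr 1
      funext I
      push_cast
      rfl
    rw [e3, Matrix.mul_sub, Matrix.sub_mul, Matrix.mul_smul, Matrix.smul_mul, Matrix.mul_one, hV1,
      e1]
  rw [e2, ← prod_iff hk x hx ha c]
  have e4 : (V * Matrix.diagonal (fun I : Ix n k => ((c - ∏ i ∈ I.1, x i : ℝ) : ℂ)) *
      Vᴴ).PosSemidef ↔
      (Matrix.diagonal (fun I : Ix n k => ((c - ∏ i ∈ I.1, x i : ℝ) : ℂ))).PosSemidef := by
    constructor
    · intro h
      have h3 := h.conjTranspose_mul_mul_same V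
      have h4 : Vᴴ * (V * Matrix.diagonal (fun I : Ix n k => ((c - ∏ i ∈ I.1, x i : ℝ) : ℂ)) *
          Vᴴ) * V = Matrix.diagonal (fun I : Ix n k => ((c - ∏ i ∈ I.1, x i : ℝ) : ℂ)) := by
        rw [Matrix.mul_assoc, Matrix.mul_assoc, Matrix.mul_assoc, hV2, Matrix.mul_one,
          ← Matrix.mul_assoc, hV2, Matrix.one_mul]
      rwa [h4] at h3
    · intro h
      exact h.mul_mul_conjTranspose_same V
  rw [e4, Matrix.posSemidef_diagonal_iff]
  refine forall_congr' fun I => ?_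
  rw [Complex.zero_le_real, sub_nonneg]

end Pool.Agent.N371.DI
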